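import Pool.Agent.Helper66.R7.Sheet

/-! Row CERTT, after Helper46/RS/CERTS.lean. -/

set_option autoImplicit false

namespace Pool.Helper66.R7

namespace C7

open Pool.Agent.Helper97.RK (cur)
open Pool.Helper17.RS (MM Cong Box yy)

theorem cz {M : ℤ} (q : ℕ) (hq : (q : ℤ) ∣ M) {a b : ℤ} (h : a ≡ b [ZMOD M]) :
    (a : ZMod q) = (b : ZMod q) :=
  (ZMod.intCast_eq_intCast_iff a b q).2 (h.of_dvd hq)

/-- `1000! / 5038848` -/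
def MC : ℤ := ((Nat.factorial 1000 / 5038848 : ℕ) : ℤ)

theorem d27 : 5038848 ∣ Nat.factorial 27 := by decide

theorem d27' : 5038848 ∣ Nat.factorial 1000 :=
  d27.trans (Nat.factorial_dvd_factorial (by norm_num))

theorem MM_eq : MM = 5038848 * MC := by
  unfold MM MC
  have h3 : ∀ n : ℕ, 5038848 ∣ n → (n : ℤ) = 5038848 * ((n / 5038848 : ℕ) : ℤ) := by
    intro n hn
    omega
  exact h3 _ d27'

theorem dvd_MC {q : ℕ} (hq : q.Prime) (hq1 : q ≤ 1000) : (q : ℤ) ∣ MC := by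
  have h : 5038848 * q ∣ Nat.factorial 1000 := by
    by_cases h973 : q ≤ 973
    · have h1 : Nat.factorial 27 * Nat.factorial 973 ∣ Nat.factorial (27 + 973) :=
        Nat.factorial_mul_factorial_dvd_factorial_add 27 973
      exact (Nat.mul_dvd_mul d27 (Nat.dvd_factorial hq.pos h973)).trans h1
    · refine Nat.Coprime.mul_dvd_of_dvd_of_dvd ?_ d27' (Nat.dvd_factorial hq.pos hq1)
      have h2 : Nat.Coprime (2 ^ 8) q :=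
        Nat.Coprime.pow_left 8 ((Nat.coprime_primes Nat.prime_two hq).2 (by omega))
      have h3 : Nat.Coprime (3 ^ 9) q :=
        Nat.Coprime.pow_left 9 ((Nat.coprime_primes Nat.prime_three hq).2 (by omega))
      have h4 : Nat.Coprime (2 ^ 8 * 3 ^ 9) q := Nat.Coprime.mul_left h2 h3
      exact h4
  unfold MC
  have h5 : q ∣ Nat.factorial 1000 / 5038848 := by
    obtain ⟨k, hk⟩ := h
    exact ⟨k, by rw [hk, mul_assoc, Nat.mul_div_cancel_left _ (by norm_num)]⟩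
  exact_mod_cast h5

theorem divd {d g P x : ℤ} (hd : d ≠ 0) (hde : d * g = 5038848) (h : P ≡ d * x [ZMOD MM]) :
    d * (P / d) = P ∧ P / d ≡ x [ZMOD MC] := by
  obtain ⟨k, hk⟩ := Int.modEq_iff_dvd.1 h.symm
  rw [MM_eq, ← hde] at hk
  have e : P = d * (x + g * (MC * k)) := by linear_combination hk
  have e2 : P / d = x + MC * (g * k) := by
    rw [e, Int.mul_ediv_cancel_left _ hd]
    ring
  refine ⟨by rw [e2, e]; ring, ?_⟩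
  rw [e2]
  exact (Int.modEq_iff_dvd.2 ⟨g * k, by ring⟩).symm

/-- `216 X` -/
def PP (a b c : ℤ) : Fin 7 → ℤ :=
  ![2 * (20097 * a ^ 2 - 3164 * b ^ 2 + 792 * c ^ 2),
    2 * (-6111 * a ^ 2 + 8820 * a * b - 3780 * a * c + 1561 * b ^ 2 - 630 * b * c + 729 * c ^ 2),
    2 * (-103455 * a ^ 2 + 20196 * a * b + 13068 * a * c + 4801 * b ^ 2 + 2970 * b * c + 1089 * c ^ 2),
    -227502 * a ^ 2 + 10296 * a * b + 4157 * b ^ 2 + 1683 * c ^ 2,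
    2 * (-6111 * a ^ 2 - 8820 * a * b - 3780 * a * c + 1561 * b ^ 2 + 630 * b * c + 729 * c ^ 2),
    33858 * a ^ 2 + 14256 * a * b - 3763 * b ^ 2 + 1683 * c ^ 2,
    2 * (20097 * a ^ 2 + 2128 * b ^ 2 + 792 * c ^ 2)]

/-- `144 Y` -/
def QQ (a b c : ℤ) : Fin 7 → ℤ :=
  ![6 * (224224 * a ^ 2 * b - 6125 * b ^ 3 - 539 * b * c ^ 2),
    3057600 * a ^ 3 - 519400 * a ^ 2 * b + 222600 * a ^ 2 * c - 105350 * a * b ^ 2 + 78204 * a * b * c - 24150 * a * c ^ 2 + 11025 * b ^ 3 + 7525 * b ^ 2 * c - 4025 * b * c ^ 2 - 525 * c ^ 3,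
    3 * (1711424 * a ^ 3 + 109208 * a ^ 2 * b + 70664 * a ^ 2 * c - 100606 * a * b ^ 2 - 75988 * a * b * c - 30734 * a * c ^ 2 - 8415 * b ^ 3 - 14795 * b ^ 2 * c - 6985 * b * c ^ 2 - 605 * c ^ 3),
    4907760 * a ^ 3 + 145288 * a ^ 2 * b - 153329 * a * b ^ 2 - 1815 * a * c ^ 2 + 2860 * b ^ 3 - 2860 * b * c ^ 2,
    3057600 * a ^ 3 + 519400 * a ^ 2 * b + 222600 * a ^ 2 * c - 105350 * a * b ^ 2 - 78204 * a * b * c - 24150 * a * c ^ 2 - 11025 * b ^ 3 + 7525 * b ^ 2 * c + 4025 * b * c ^ 2 - 525 * c ^ 3,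
    1045440 * a ^ 3 - 1185712 * a ^ 2 * b - 20889 * a * b ^ 2 - 16335 * a * c ^ 2 + 35640 * b ^ 3 - 440 * b * c ^ 2,
    24 * (5929 * a * b * c)]

/-- the abscissas at `(4, 3, 1)` -/
def XX : Fin 7 → ℤ := ![2721, 54, -12106, -16099, -1871, 3151, 3162]
/-- the ordinates at `(4, 3, 1)` -/
def YY : Fin 7 → ℤ := ![441490, 1192492, 2309692, 2191750, 1521758, 70400, 11858]

theorem ident (a b c : ℤ) (i : Fin 7) :
    486 * QQ a b c i ^ 2 = PP a b c i ^ 3 - 3 * GA (a ^ 2) (b ^ 2) (c ^ 2) * PP a b c i +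
      2 * GB (a ^ 2) (b ^ 2) (c ^ 2) := by
  obtain ⟨h0, h1, h2, h3, h4, h5, h6⟩ := chk_pts a b c
  fin_cases i
  · exact h0 _ _ ⟨rfl, rfl⟩
  · exact h1 _ _ ⟨rfl, rfl⟩
  · exact h2 _ _ ⟨rfl, rfl⟩
  · exact h3 _ _ ⟨rfl, rfl⟩
  · exact h4 _ _ ⟨rfl, rfl⟩
  · exact h5 _ _ ⟨rfl, rfl⟩
  · exact h6 _ _ ⟨rfl, rfl⟩

theorem onc {F A B P Q X Y G : ℤ} (hX : 216 * X = P) (hY : 144 * Y = Q) (hA : 15552 * A = -F)
    (hB : 5038848 * B = G) (h : 486 * Q ^ 2 = P ^ 3 - 3 * F * P + 2 * G) :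
    Y ^ 2 = X ^ 3 + A * X + B := by
  have h1 : 10077696 * Y ^ 2 = 10077696 * (X ^ 3 + A * X + B) := by
    rw [← hX, ← hY, ← hB] at h
    linear_combination h - (648 * X) * hA
  linarith

theorem GA_mod {M a b c : ℤ} (ha : a ≡ 4 [ZMOD M]) (hb : b ≡ 3 [ZMOD M])
    (hc : c ≡ 1 [ZMOD M]) :
    GA (a ^ 2) (b ^ 2) (c ^ 2) ≡ GA (4 ^ 2) (3 ^ 2) (1 ^ 2) [ZMOD M] := by
  unfold GA
  gcongr

theorem GB_mod {M a b c : ℤ} (ha : a ≡ 4 [ZMOD M]) (hb : b ≡ 3 [ZMOD M])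
    (hc : c ≡ 1 [ZMOD M]) :
    GB (a ^ 2) (b ^ 2) (c ^ 2) ≡ GB (4 ^ 2) (3 ^ 2) (1 ^ 2) [ZMOD M] := by
  unfold GB
  gcongr

theorem PP_mod {M a b c : ℤ} (ha : a ≡ 4 [ZMOD M]) (hb : b ≡ 3 [ZMOD M])
    (hc : c ≡ 1 [ZMOD M]) (i : Fin 7) : PP a b c i ≡ PP 4 3 1 i [ZMOD M] := by
  fin_cases i

  · show 2 * (20097 * a ^ 2 - 3164 * b ^ 2 + 792 * c ^ 2) ≡ 2 * (20097 * 4 ^ 2 - 3164 * 3 ^ 2 + 792 * 1 ^ 2) [ZMOD M]
    gcongr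

  · show 2 * (-6111 * a ^ 2 + 8820 * a * b - 3780 * a * c + 1561 * b ^ 2 - 630 * b * c + 729 * c ^ 2) ≡ 2 * (-6111 * 4 ^ 2 + 8820 * 4 * 3 - 3780 * 4 * 1 + 1561 * 3 ^ 2 - 630 * 3 * 1 + 729 * 1 ^ 2) [ZMOD M]
    gcongr

  · show 2 * (-103455 * a ^ 2 + 20196 * a * b + 13068 * a * c + 4801 * b ^ 2 + 2970 * b * c + 1089 * c ^ 2) ≡ 2 * (-103455 * 4 ^ 2 + 20196 * 4 * 3 + 13068 * 4 * 1 + 4801 * 3 ^ 2 + 2970 * 3 * 1 + 1089 * 1 ^ 2) [ZMOD M]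
    gcongr

  · show -227502 * a ^ 2 + 10296 * a * b + 4157 * b ^ 2 + 1683 * c ^ 2 ≡ -227502 * 4 ^ 2 + 10296 * 4 * 3 + 4157 * 3 ^ 2 + 1683 * 1 ^ 2 [ZMOD M]
    gcongr

  · show 2 * (-6111 * a ^ 2 - 8820 * a * b - 3780 * a * c + 1561 * b ^ 2 + 630 * b * c + 729 * c ^ 2) ≡ 2 * (-6111 * 4 ^ 2 - 8820 * 4 * 3 - 3780 * 4 * 1 + 1561 * 3 ^ 2 + 630 * 3 * 1 + 729 * 1 ^ 2) [ZMOD M]
    gcongr

  · show 33858 * a ^ 2 + 14256 * a * b - 3763 * b ^ 2 + 1683 * c ^ 2 ≡ 33858 * 4 ^ 2 + 14256 * 4 * 3 - 3763 * 3 ^ 2 + 1683 * 1 ^ 2 [ZMOD M]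
    gcongr

  · show 2 * (20097 * a ^ 2 + 2128 * b ^ 2 + 792 * c ^ 2) ≡ 2 * (20097 * 4 ^ 2 + 2128 * 3 ^ 2 + 792 * 1 ^ 2) [ZMOD M]
    gcongr


theorem QQ_mod {M a b c : ℤ} (ha : a ≡ 4 [ZMOD M]) (hb : b ≡ 3 [ZMOD M])
    (hc : c ≡ 1 [ZMOD M]) (i : Fin 7) : QQ a b c i ≡ QQ 4 3 1 i [ZMOD M] := by
  fin_cases i

  · show 6 * (224224 * a ^ 2 * b - 6125 * b ^ 3 - 539 * b * c ^ 2) ≡ 6 * (224224 * 4 ^ 2 * 3 - 6125 * 3 ^ 3 - 539 * 3 * 1 ^ 2) [ZMOD M]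
    gcongr

  · show 3057600 * a ^ 3 - 519400 * a ^ 2 * b + 222600 * a ^ 2 * c - 105350 * a * b ^ 2 + 78204 * a * b * c - 24150 * a * c ^ 2 + 11025 * b ^ 3 + 7525 * b ^ 2 * c - 4025 * b * c ^ 2 - 525 * c ^ 3 ≡ 3057600 * 4 ^ 3 - 519400 * 4 ^ 2 * 3 + 222600 * 4 ^ 2 * 1 - 105350 * 4 * 3 ^ 2 + 78204 * 4 * 3 * 1 - 24150 * 4 * 1 ^ 2 + 11025 * 3 ^ 3 + 7525 * 3 ^ 2 * 1 - 4025 * 3 * 1 ^ 2 - 525 * 1 ^ 3 [ZMOD M]
    gcongr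

  · show 3 * (1711424 * a ^ 3 + 109208 * a ^ 2 * b + 70664 * a ^ 2 * c - 100606 * a * b ^ 2 - 75988 * a * b * c - 30734 * a * c ^ 2 - 8415 * b ^ 3 - 14795 * b ^ 2 * c - 6985 * b * c ^ 2 - 605 * c ^ 3) ≡ 3 * (1711424 * 4 ^ 3 + 109208 * 4 ^ 2 * 3 + 70664 * 4 ^ 2 * 1 - 100606 * 4 * 3 ^ 2 - 75988 * 4 * 3 * 1 - 30734 * 4 * 1 ^ 2 - 8415 * 3 ^ 3 - 14795 * 3 ^ 2 * 1 - 6985 * 3 * 1 ^ 2 - 605 * 1 ^ 3) [ZMOD M]
    gcongr

  · show 4907760 * a ^ 3 + 145288 * a ^ 2 * b - 153329 * a * b ^ 2 - 1815 * a * c ^ 2 + 2860 * b ^ 3 - 2860 * b * c ^ 2 ≡ 4907760 * 4 ^ 3 + 145288 * 4 ^ 2 * 3 - 153329 * 4 * 3 ^ 2 - 1815 * 4 * 1 ^ 2 + 2860 * 3 ^ 3 - 2860 * 3 * 1 ^ 2 [ZMOD M]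
    gcongr

  · show 3057600 * a ^ 3 + 519400 * a ^ 2 * b + 222600 * a ^ 2 * c - 105350 * a * b ^ 2 - 78204 * a * b * c - 24150 * a * c ^ 2 - 11025 * b ^ 3 + 7525 * b ^ 2 * c + 4025 * b * c ^ 2 - 525 * c ^ 3 ≡ 3057600 * 4 ^ 3 + 519400 * 4 ^ 2 * 3 + 222600 * 4 ^ 2 * 1 - 105350 * 4 * 3 ^ 2 - 78204 * 4 * 3 * 1 - 24150 * 4 * 1 ^ 2 - 11025 * 3 ^ 3 + 7525 * 3 ^ 2 * 1 + 4025 * 3 * 1 ^ 2 - 525 * 1 ^ 3 [ZMOD M]
    gcongr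

  · show 1045440 * a ^ 3 - 1185712 * a ^ 2 * b - 20889 * a * b ^ 2 - 16335 * a * c ^ 2 + 35640 * b ^ 3 - 440 * b * c ^ 2 ≡ 1045440 * 4 ^ 3 - 1185712 * 4 ^ 2 * 3 - 20889 * 4 * 3 ^ 2 - 16335 * 4 * 1 ^ 2 + 35640 * 3 ^ 3 - 440 * 3 * 1 ^ 2 [ZMOD M]
    gcongr

  · show 24 * (5929 * a * b * c) ≡ 24 * (5929 * 4 * 3 * 1) [ZMOD M]
    gcongr


theorem PP_val (i : Fin 7) : PP 4 3 1 i = 216 * XX i := by
  revert i
  decide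

theorem QQ_val (i : Fin 7) : QQ 4 3 1 i = 144 * YY i := by
  revert i
  decide

theorem dec7 : ∀ S : Finset (Fin 7), S.Nonempty →

    ¬ IsSquare (∏ i ∈ S, ((XX i - 12 : ℤ) : ZMod 13)) ∨
    ¬ IsSquare (∏ i ∈ S, ((XX i - 5 : ℤ) : ZMod 17)) ∨
    ¬ IsSquare (∏ i ∈ S, ((XX i - 11 : ℤ) : ZMod 17)) ∨
    ¬ IsSquare (∏ i ∈ S, ((XX i - 17 : ℤ) : ZMod 19)) ∨
    ¬ IsSquare (∏ i ∈ S, ((XX i - 28 : ℤ) : ZMod 29)) ∨
    ¬ IsSquare (∏ i ∈ S, ((XX i - 15 : ℤ) : ZMod 37)) ∨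
    ¬ IsSquare (∏ i ∈ S, ((XX i - 0 : ℤ) : ZMod 41)) := by
  decide +kernel

theorem noroot (t : ZMod 23) :
    t ^ 3 + ((-467667583 : ℤ) : ZMod 23) * t + ((1447291062082 : ℤ) : ZMod 23) ≠ 0 := by
  revert t
  decide

theorem step (n : ℕ) (A B : ℤ) (x b : Fin n → ℤ) (hA : A ≡ -467667583 [ZMOD MC])
    (hB : B ≡ 1447291062082 [ZMOD MC]) (hx : ∀ i, x i ≡ b i [ZMOD MC]) (S : Finset (Fin n))
    (q : ℕ) (e : ℤ) (hqp : q.Prime) (hq : (q : ℤ) ∣ MC)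
    (h1 : ((e ^ 3 + (-467667583) * e + 1447291062082 : ℤ) : ZMod q) = 0)
    (h2 : ((3 * e ^ 2 + (-467667583) : ℤ) : ZMod q) ≠ 0)
    (h3 : ¬ IsSquare (∏ i ∈ S, ((b i - e : ℤ) : ZMod q))) :
    ∃ (q : ℕ) (e : ℤ), q.Prime ∧
      ((e ^ 3 + A * e + B : ℤ) : ZMod q) = 0 ∧ ((3 * e ^ 2 + A : ℤ) : ZMod q) ≠ 0 ∧
      ¬ IsSquare (∏ i ∈ S, ((x i - e : ℤ) : ZMod q)) := by
  refine ⟨q, e, hqp, ?_, ?_, ?_⟩
  · rw [← h1]
    exact cz q hq (((Int.ModEq.refl (e ^ 3)).add (hA.mul (Int.ModEq.refl e))).add hB)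
  · intro h
    apply h2
    rw [← h]
    exact cz q hq (((Int.ModEq.refl (3 * e ^ 2)).add hA).symm)
  · intro h
    apply h3
    refine (congrArg IsSquare ?_).mp h
    apply Finset.prod_congr rfl
    intro i _
    exact cz q hq ((hx i).sub (Int.ModEq.refl e))

theorem stepAll (n : ℕ) (A B : ℤ) (x b : Fin n → ℤ) (hA : A ≡ -467667583 [ZMOD MC])
    (hB : B ≡ 1447291062082 [ZMOD MC]) (hx : ∀ i, x i ≡ b i [ZMOD MC]) (S : Finset (Fin n))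
    (h : ¬ IsSquare (∏ i ∈ S, ((b i - 12 : ℤ) : ZMod 13)) ∨
    ¬ IsSquare (∏ i ∈ S, ((b i - 5 : ℤ) : ZMod 17)) ∨
    ¬ IsSquare (∏ i ∈ S, ((b i - 11 : ℤ) : ZMod 17)) ∨
    ¬ IsSquare (∏ i ∈ S, ((b i - 17 : ℤ) : ZMod 19)) ∨
    ¬ IsSquare (∏ i ∈ S, ((b i - 28 : ℤ) : ZMod 29)) ∨
    ¬ IsSquare (∏ i ∈ S, ((b i - 15 : ℤ) : ZMod 37)) ∨
    ¬ IsSquare (∏ i ∈ S, ((b i - 0 : ℤ) : ZMod 41))) :
    ∃ (q : ℕ) (e : ℤ), q.Prime ∧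
      ((e ^ 3 + A * e + B : ℤ) : ZMod q) = 0 ∧ ((3 * e ^ 2 + A : ℤ) : ZMod q) ≠ 0 ∧
      ¬ IsSquare (∏ i ∈ S, ((x i - e : ℤ) : ZMod q)) := by
  rcases h with h | h | h | h | h | h | h

  · exact step n A B x b hA hB hx S 13 12 (by norm_num) (dvd_MC (by norm_num) (by norm_num))
      (by decide) (by decide) h

  · exact step n A B x b hA hB hx S 17 5 (by norm_num) (dvd_MC (by norm_num) (by norm_num))
      (by decide) (by decide) h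

  · exact step n A B x b hA hB hx S 17 11 (by norm_num) (dvd_MC (by norm_num) (by norm_num))
      (by decide) (by decide) h

  · exact step n A B x b hA hB hx S 19 17 (by norm_num) (dvd_MC (by norm_num) (by norm_num))
      (by decide) (by decide) h

  · exact step n A B x b hA hB hx S 29 28 (by norm_num) (dvd_MC (by norm_num) (by norm_num))
      (by decide) (by decide) h

  · exact step n A B x b hA hB hx S 37 15 (by norm_num) (dvd_MC (by norm_num) (by norm_num))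
      (by decide) (by decide) h

  · exact step n A B x b hA hB hx S 41 0 (by norm_num) (dvd_MC (by norm_num) (by norm_num))
      (by decide) (by decide) h


theorem cong0 {y : Fin 3 → ℤ} (h : Cong tb y) :
    y 0 ≡ 4 [ZMOD MM] ∧ y 1 ≡ 3 [ZMOD MM] ∧ y 2 ≡ 1 [ZMOD MM] :=
  ⟨(Int.modEq_iff_dvd.2 (h 0)).symm, (Int.modEq_iff_dvd.2 (h 1)).symm,
    (Int.modEq_iff_dvd.2 (h 2)).symm⟩

/-- the first two parts, with the residues -/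
theorem vals {y : Fin 3 → ℤ} (h : Cong tb y) :
    15552 * tA y = -(GA (y 0 ^ 2) (y 1 ^ 2) (y 2 ^ 2)) ∧
    5038848 * tB y = GB (y 0 ^ 2) (y 1 ^ 2) (y 2 ^ 2) ∧
    tA y ≡ -467667583 [ZMOD MC] ∧ tB y ≡ 1447291062082 [ZMOD MC] := by
  obtain ⟨h0, h1, h2⟩ := cong0 h
  have hA : -(GA (y 0 ^ 2) (y 1 ^ 2) (y 2 ^ 2)) ≡ 15552 * (-467667583) [ZMOD MM] := by
    have h3 := (GA_mod h0 h1 h2).neg
    rw [chk_base.1, ← mul_neg] at h3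
    exact h3
  have hB : GB (y 0 ^ 2) (y 1 ^ 2) (y 2 ^ 2) ≡ 5038848 * 1447291062082 [ZMOD MM] := by
    have h3 := GB_mod h0 h1 h2
    rw [chk_base.2] at h3
    exact h3
  obtain ⟨a1, a2⟩ := divd (g := 324) (by norm_num) (by norm_num) hA
  obtain ⟨b1, b2⟩ := divd (g := 1) (by norm_num) (by norm_num) hB
  exact ⟨a1, b1, a2, b2⟩

end C7

open C7 in
open Pool.Helper17.RS (MM Cong Box yy) in
/-- row CERTT -/
theorem st_CERTT (hR : Pool.Agent.Helper97.RK.ST_RANK) : ST_CERTT := by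
  intro y hy
  obtain ⟨eA, eB, hA, hB⟩ := vals hy
  obtain ⟨h0, h1, h2⟩ := cong0 hy
  have hd13 : ((13 : ℕ) : ℤ) ∣ MC := dvd_MC (by norm_num) (by norm_num)
  have hd23 : ((23 : ℕ) : ℤ) ∣ MC := dvd_MC (by norm_num) (by norm_num)
  have hA0 : tA y ≠ 0 := by
    intro h
    have h3 : tA y ≡ -467667583 [ZMOD 13] := hA.of_dvd hd13
    rw [h] at h3
    revert h3
    decide
  have hdisc : 4 * tA y ^ 3 + 27 * tB y ^ 2 ≠ 0 := by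
    intro h
    have h3 : 4 * tA y ^ 3 + 27 * tB y ^ 2 ≡
        4 * (-467667583) ^ 3 + 27 * 1447291062082 ^ 2 [ZMOD 13] :=
      (((Int.ModEq.refl 4).mul ((hA.of_dvd hd13).pow 3)).add
        ((Int.ModEq.refl 27).mul ((hB.of_dvd hd13).pow 2)))
    rw [h] at h3
    revert h3
    decide
  have h23 : ∀ t : ZMod 23, t ^ 3 + (tA y : ZMod 23) * t + (tB y : ZMod 23) ≠ 0 := by
    intro t
    rw [cz 23 hd23 hA, cz 23 hd23 hB]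
    exact noroot t
  refine ⟨eA, eB, hA0, hdisc, ?_, ?_⟩
  · intro q hq hq1 hdv
    obtain ⟨ha, hb⟩ := hdv
    have hqM : (q : ℤ) ∣ MC := dvd_MC hq hq1
    have ha' : (q : ℤ) ∣ -467667583 := (hA.of_dvd hqM).dvd_iff.1 ha
    have hb' : (q : ℤ) ∣ 1447291062082 := (hB.of_dvd hqM).dvd_iff.1 hb
    have h1' : (q : ℤ) ∣ 1 := by
      have e2 : IsCoprime (-467667583 : ℤ) 1447291062082 := by
        rw [Int.isCoprime_iff_gcd_eq_one]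
        norm_num
      obtain ⟨a, b, hab⟩ := e2
      rw [← hab]
      exact dvd_add (ha'.mul_left a) (hb'.mul_left b)
    have h2' : q ∣ 1 := by exact_mod_cast h1'
    exact hq.one_lt.ne' (Nat.dvd_one.1 h2')
  · have hP : ∀ i, 216 * (PP (y 0) (y 1) (y 2) i / 216) = PP (y 0) (y 1) (y 2) i ∧
        PP (y 0) (y 1) (y 2) i / 216 ≡ XX i [ZMOD MC] := by
      intro i
      refine divd (g := 23328) (by norm_num) (by norm_num) ?_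
      rw [← PP_val]
      exact PP_mod h0 h1 h2 i
    have hQ : ∀ i, 144 * (QQ (y 0) (y 1) (y 2) i / 144) = QQ (y 0) (y 1) (y 2) i ∧
        QQ (y 0) (y 1) (y 2) i / 144 ≡ YY i [ZMOD MC] := by
      intro i
      refine divd (g := 34992) (by norm_num) (by norm_num) ?_
      rw [← QQ_val]
      exact QQ_mod h0 h1 h2 i
    refine hR 7 _ _ (fun i => PP (y 0) (y 1) (y 2) i / 216)
      (fun i => QQ (y 0) (y 1) (y 2) i / 144) ?_ hdisc 23 h23 ?_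
    · intro i
      exact onc (hP i).1 (hQ i).1 eA eB (ident _ _ _ i)
    · intro S hS
      exact stepAll 7 _ _ _ XX hA hB (fun i => (hP i).2) S (dec7 S hS)

end Pool.Helper66.R7
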