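import Mathlib
import Pool.Agent.Helper97.RK.Stmts
import Pool.Agent.Helper17.RS.Sheet

/-! # Statements for `N_7(H) ≥ H ^ (1/4 - ε)` (MP_798d7d_nt, rank seven)

FAMILY T.  Line sections of a plane quartic `∑ c_ij x_i² x_j²` with 28 rational bitangents (double
plane; `E₇`): parameters `(u, v, w)` of weight 1, `A`, `B` of degrees 4 and 6, forms in
`U = u²`, `V = v²`, `W = w²`.  The quartic is special: the ternary form `A (U, V, W)` is DEGENERATE,
`2451 GA = (3 M1)² + 3 (70 M2)²` with linear forms `M1`, `M2`.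
MULTIPLICITY: given `(A, B)` there are `N^ε` possible `(M1, M2)` (row PELLN of `Helper97.RK`,
`d = -3`); given these, `(U, V, W)` is on a line with direction `(2276, 57717, 130781)`, and `B` is
injective there on the residue class (its derivative is a unit modulo 13).
General rows: GEN, CNT, SIEVE of `Pool.Helper17.RS` (same modulus, same box).
-/

set_option autoImplicit false

namespace Pool.Helper66.R7

open Pool.Agent.Helper97.RK (cur)
open Pool.Helper17.RS (MM Cong Box yy)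

section
variable {R : Type*} [CommRing R]

/-- `- 15552 A` -/
def GA (U V W : R) : R :=
  29318881284 * U ^ 2 - 1596793968 * U * V - 315775152 * U * W + 31080259 * V ^ 2 +
    356202 * V * W + 2669139 * W ^ 2

/-- `5038848 B` -/
def GB (U V W : R) : R :=
  1735196809682952 * U ^ 3 + 80585713044144 * U ^ 2 * V + 46784697298416 * U ^ 2 * W -
    9412155995319 * U * V ^ 2 - 1681018456194 * U * V * W - 740630196999 * U * W ^ 2 +
    159870768848 * V ^ 3 + 33082927416 * V ^ 2 * W + 1868305824 * V * W ^ 2 +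
    4354701912 * W ^ 3

/-- `2451 GA = (3 M1)² + 3 (70 M2)²` -/
def M1 (U V W : R) : R := 26961 * W - 1594824 * U + 1799 * V
def M2 (U V : R) : R := 57717 * U - 2276 * V
end

def tb : Fin 3 → ℤ := ![4, 3, 1]
def tA (y : Fin 3 → ℤ) : ℤ := (-(GA (y 0 ^ 2) (y 1 ^ 2) (y 2 ^ 2))) / 15552
def tB (y : Fin 3 → ℤ) : ℤ := (GB (y 0 ^ 2) (y 1 ^ 2) (y 2 ^ 2)) / 5038848

/-- CERTT.  At `(4, 3, 1)`: `A = -467667583`, `B = 1447291062082`, coprime.  Points `(X, Y)`:
`P1: 108 X = 20097 u² - 3164 v² + 792 w²`,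
`    24 Y = 224224 u² v - 6125 v³ - 539 v w²`
`P2: 108 X = -6111 u² + 8820 u v - 3780 u w + 1561 v² - 630 v w + 729 w²`,
`    144 Y = 3057600 u³ - 519400 u² v + 222600 u² w - 105350 u v² + 78204 u v w - 24150 u w² +
      11025 v³ + 7525 v² w - 4025 v w² - 525 w³`
`P3: 108 X = -103455 u² + 20196 u v + 13068 u w + 4801 v² + 2970 v w + 1089 w²`,
`    48 Y = 1711424 u³ + 109208 u² v + 70664 u² w - 100606 u v² - 75988 u v w - 30734 u w² -
      8415 v³ - 14795 v² w - 6985 v w² - 605 w³`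
`P4: 216 X = -227502 u² + 10296 u v + 4157 v² + 1683 w²`,
`    144 Y = 4907760 u³ + 145288 u² v - 153329 u v² - 1815 u w² + 2860 v³ - 2860 v w²`
`P5: 108 X = -6111 u² - 8820 u v - 3780 u w + 1561 v² + 630 v w + 729 w²`,
`    144 Y = 3057600 u³ + 519400 u² v + 222600 u² w - 105350 u v² - 78204 u v w - 24150 u w² -
      11025 v³ + 7525 v² w + 4025 v w² - 525 w³`
`P6: 216 X = 33858 u² + 14256 u v - 3763 v² + 1683 w²`,
`    144 Y = 1045440 u³ - 1185712 u² v - 20889 u v² - 16335 u w² + 35640 v³ - 440 v w²`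
`P7: 108 X = 20097 u² + 2128 v² + 792 w²`, `6 Y = 5929 u v w`.
With `P = 216 X`, `Q = 144 Y` the equation is `486 Q² = P³ - 3 GA P + 2 GB`.  At the base
`X = 2721, 54, -12106, -16099, -1871, 3151, 3162`,
`Y = 441490, 1192492, 2309692, 2191750, 1521758, 70400, 11858`.
ST_RANK with `p = 23` (no root) and the characters
`(13, 12): (-,+,-,+,-,-,+)`, `(17, 5): (+,+,-,-,-,+,-)`, `(17, 11): (-,+,+,-,-,-,-)`,
`(19, 17): (+,-,-,-,-,-,-)`, `(29, 28): (+,-,-,-,-,+,-)`, `(37, 15): (-,-,-,-,+,+,-)`,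
`(41, 0): (-,-,-,-,-,-,+)` (nonsingular).  `A ≡ 7` modulo 13.
Compare `Helper46/RS/CERTS.lean`. -/
def ST_CERTT : Prop := ∀ y : Fin 3 → ℤ, Cong tb y →
  15552 * tA y = -(GA (y 0 ^ 2) (y 1 ^ 2) (y 2 ^ 2)) ∧
  5038848 * tB y = GB (y 0 ^ 2) (y 1 ^ 2) (y 2 ^ 2) ∧
  tA y ≠ 0 ∧ 4 * tA y ^ 3 + 27 * tB y ^ 2 ≠ 0 ∧
  (∀ q : ℕ, q.Prime → q ≤ 1000 → ¬ ((q : ℤ) ∣ tA y ∧ (q : ℤ) ∣ tB y)) ∧
  (7 : Cardinal) ≤ Module.rank ℤ ((cur (tA y) (tB y)).toAffine).Point

/-- BNDT. -/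
def ST_BNDT : Prop := ∃ C : ℤ, 1 ≤ C ∧ ∀ N : ℕ, 1 ≤ N → ∀ t ∈ Box N,
  (∀ i, 0 < yy tb t i ∧ yy tb t i ≤ C * (N : ℤ)) ∧
  |tA (yy tb t)| ≤ C * (N : ℤ) ^ 4 ∧ |tB (yy tb t)| ≤ C * (N : ℤ) ^ 6

open Classical in
/-- SV7 (uses CERTT only for the two divisibilities).  With
`S = 7973655108477844098998996685002475 U⁴ + 491577640829083281277905007168800 U³V -
  116655258685397893167434627946816 U³W - 13239304645753949125977765894400 U²V² -
  12495256796419345121238186404976 U²VW + 1123905257126949105180239868000 U²W² +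
  156955281604144169322641652992 UV²W + 136904289076500797770286062464 UVW² -
  3664046866676748210767598336 UW³ - 1227411132434076795145830400 V²W² -
  421835916858118574037811200 VW³ + 58256098796091590416281600 W⁴`,
`T = -76270750280843471725464840825 U³ + 2573835231637366705336185200 U²V +
  1697304982631780497883086872 U²W - 30513463085379808518124336 UVW -
  18861823281627615860147808 UW² + 238619330915988435123200 VW² +
  35364500262554866444800 W³`:
`S GA + T GB = 101433884965577345670500600499614516375062500 U⁶ -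
  6561229608117353613572063688280289204520000 U⁵W +
  194238615731936644548162467290996547856768 U⁴W² -
  3183988239445423316104964448378105467904 U³W³ +
  28880288540873436072180025510222537728 U²W⁴ -
  136505313546474639228408625029120000 UW⁵ + 309495482194773290464198656000000 W⁶`
(leading coefficient `2² 3⁶ 5⁶ 7¹⁴ 11⁴ 13³ 17⁶ 61³ 97³`, see the factorisation: only primes `< 100`).
Given `w` at most 12 values of `u` modulo `q`, then at most 4 of `v` (`GA` is quadratic in `V`, leading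
coefficient `31080259 = 7³ 31 37 79`).  Compare `Helper46/RS/SVS.lean`. -/
def ST_SV7 : Prop := ∀ N q : ℕ, q.Prime → 1000 < q →
  ((Box N).filter (fun t => (q : ℤ) ∣ tA (yy tb t) ∧ (q : ℤ) ∣ tB (yy tb t))).card ≤
    50 * (N / q + 1) ^ 2 * N

/-- INJT.  With `Δ` = difference of the squares: `57717 ΔU = 2276 ΔV` (coprime), so `ΔU = 2276 k`,
`ΔV = 57717 k`, and then `ΔW = 130781 k`; `13 ∣ k` (`57717 ≡ 10` modulo 13).  For all `U, V, W, k`
`GB (U + 2276 k) (V + 57717 k) (W + 130781 k) - GB U V W = k (D1 + k D2 + k² D3)` with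
`D1 = 22617638913668198400 U² - 939501924106217472 UV - 77780115721211904 UW +
  10586334781845900 V² + 481574444978088 VW + 130695491133900 W²`,
`D2 = 19279049233621635634176 U - 426651311284736009472 V - 57523768544356418304 W`,
`D3 = 3910355449434085900824576`, and `D1 (16, 9, 1) ≡ 12` modulo 13.  So `k = 0`; the entries are
positive. -/
def ST_INJT : Prop := ∀ y y' : Fin 3 → ℤ, Cong tb y → Cong tb y' → (∀ i, 0 < y i) →
  (∀ i, 0 < y' i) → M1 (y 0 ^ 2) (y 1 ^ 2) (y 2 ^ 2) = M1 (y' 0 ^ 2) (y' 1 ^ 2) (y' 2 ^ 2) →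
  M2 (y 0 ^ 2) (y 1 ^ 2) = M2 (y' 0 ^ 2) (y' 1 ^ 2) →
  GB (y 0 ^ 2) (y 1 ^ 2) (y 2 ^ 2) = GB (y' 0 ^ 2) (y' 1 ^ 2) (y' 2 ^ 2) → y = y'

open Classical in
/-- MULTT (from INJT, CERTT, BNDT, `Pool.Agent.Helper97.RK.ST_PELLN` with `d = -3`,
`N₀ = -2451 · 15552 · A ≠ 0`, `T = K N²`, and
`Pool.Agent.Helper15.Hall.card_divisors_le_uniform`): `t ↦ (3 M1, 70 M2)` is injective on the
fibre, `(3 M1)² + 3 (70 M2)² = 2451 GA = N₀`, `|3 M1|, |70 M2| ≤ T`.  Compare
`Helper72/RS/MULTK.lean`. -/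
def ST_MULTT : Prop := ∀ ε : ℝ, 0 < ε → ∃ K : ℝ, 0 < K ∧ ∀ N : ℕ, 1 ≤ N → ∀ p : ℤ × ℤ,
  (((Box N).filter (fun t => tA (yy tb t) = p.1 ∧ tB (yy tb t) = p.2)).card : ℝ) ≤
    K * (N : ℝ) ^ ε

/-! ## Checks -/

theorem chk_form (U V W : ℤ) : 2451 * GA U V W = (3 * M1 U V W) ^ 2 + 3 * (70 * M2 U V) ^ 2 := by
  unfold GA M1 M2
  ring

theorem chk_base : GA (4 ^ 2 : ℤ) (3 ^ 2) (1 ^ 2) = 15552 * 467667583 ∧
    GB (4 ^ 2 : ℤ) (3 ^ 2) (1 ^ 2) = 5038848 * 1447291062082 := by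
  unfold GA GB
  norm_num

theorem chk_res (U V W : ℤ) :
    (7973655108477844098998996685002475 * U ^ 4 + 491577640829083281277905007168800 * U ^ 3 * V -
      116655258685397893167434627946816 * U ^ 3 * W -
      13239304645753949125977765894400 * U ^ 2 * V ^ 2 -
      12495256796419345121238186404976 * U ^ 2 * V * W +
      1123905257126949105180239868000 * U ^ 2 * W ^ 2 +
      156955281604144169322641652992 * U * V ^ 2 * W +
      136904289076500797770286062464 * U * V * W ^ 2 -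
      3664046866676748210767598336 * U * W ^ 3 - 1227411132434076795145830400 * V ^ 2 * W ^ 2 -
      421835916858118574037811200 * V * W ^ 3 + 58256098796091590416281600 * W ^ 4) * GA U V W +
    (-76270750280843471725464840825 * U ^ 3 + 2573835231637366705336185200 * U ^ 2 * V +
      1697304982631780497883086872 * U ^ 2 * W - 30513463085379808518124336 * U * V * W -
      18861823281627615860147808 * U * W ^ 2 + 238619330915988435123200 * V * W ^ 2 +
      35364500262554866444800 * W ^ 3) * GB U V W =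
    101433884965577345670500600499614516375062500 * U ^ 6 -
      6561229608117353613572063688280289204520000 * U ^ 5 * W +
      194238615731936644548162467290996547856768 * U ^ 4 * W ^ 2 -
      3183988239445423316104964448378105467904 * U ^ 3 * W ^ 3 +
      28880288540873436072180025510222537728 * U ^ 2 * W ^ 4 -
      136505313546474639228408625029120000 * U * W ^ 5 +
      309495482194773290464198656000000 * W ^ 6 := by
  unfold GA GB
  ring

theorem chk_inj (U V W k : ℤ) :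
    GB (U + 2276 * k) (V + 57717 * k) (W + 130781 * k) - GB U V W =
      k * ((22617638913668198400 * U ^ 2 - 939501924106217472 * U * V -
        77780115721211904 * U * W + 10586334781845900 * V ^ 2 + 481574444978088 * V * W +
        130695491133900 * W ^ 2) + k * (19279049233621635634176 * U -
        426651311284736009472 * V - 57523768544356418304 * W) +
        k ^ 2 * 3910355449434085900824576) := by
  unfold GB
  ring

/-- the seven points: `486 Q² = P³ - 3 GA P + 2 GB` -/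
theorem chk_pts (u v w : ℤ) :
    (∀ P Q : ℤ, (P = 2 * (20097 * u ^ 2 - 3164 * v ^ 2 + 792 * w ^ 2) ∧
      Q = 6 * (224224 * u ^ 2 * v - 6125 * v ^ 3 - 539 * v * w ^ 2)) →
      486 * Q ^ 2 = P ^ 3 - 3 * GA (u ^ 2) (v ^ 2) (w ^ 2) * P +
        2 * GB (u ^ 2) (v ^ 2) (w ^ 2)) ∧
    (∀ P Q : ℤ, (P = 2 * (-6111 * u ^ 2 + 8820 * u * v - 3780 * u * w + 1561 * v ^ 2 -
        630 * v * w + 729 * w ^ 2) ∧
      Q = 3057600 * u ^ 3 - 519400 * u ^ 2 * v + 222600 * u ^ 2 * w - 105350 * u * v ^ 2 +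
        78204 * u * v * w - 24150 * u * w ^ 2 + 11025 * v ^ 3 + 7525 * v ^ 2 * w -
        4025 * v * w ^ 2 - 525 * w ^ 3) →
      486 * Q ^ 2 = P ^ 3 - 3 * GA (u ^ 2) (v ^ 2) (w ^ 2) * P +
        2 * GB (u ^ 2) (v ^ 2) (w ^ 2)) ∧
    (∀ P Q : ℤ, (P = 2 * (-103455 * u ^ 2 + 20196 * u * v + 13068 * u * w + 4801 * v ^ 2 +
        2970 * v * w + 1089 * w ^ 2) ∧
      Q = 3 * (1711424 * u ^ 3 + 109208 * u ^ 2 * v + 70664 * u ^ 2 * w - 100606 * u * v ^ 2 -
        75988 * u * v * w - 30734 * u * w ^ 2 - 8415 * v ^ 3 - 14795 * v ^ 2 * w -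
        6985 * v * w ^ 2 - 605 * w ^ 3)) →
      486 * Q ^ 2 = P ^ 3 - 3 * GA (u ^ 2) (v ^ 2) (w ^ 2) * P +
        2 * GB (u ^ 2) (v ^ 2) (w ^ 2)) ∧
    (∀ P Q : ℤ, (P = -227502 * u ^ 2 + 10296 * u * v + 4157 * v ^ 2 + 1683 * w ^ 2 ∧
      Q = 4907760 * u ^ 3 + 145288 * u ^ 2 * v - 153329 * u * v ^ 2 - 1815 * u * w ^ 2 +
        2860 * v ^ 3 - 2860 * v * w ^ 2) →
      486 * Q ^ 2 = P ^ 3 - 3 * GA (u ^ 2) (v ^ 2) (w ^ 2) * P +
        2 * GB (u ^ 2) (v ^ 2) (w ^ 2)) ∧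
    (∀ P Q : ℤ, (P = 2 * (-6111 * u ^ 2 - 8820 * u * v - 3780 * u * w + 1561 * v ^ 2 +
        630 * v * w + 729 * w ^ 2) ∧
      Q = 3057600 * u ^ 3 + 519400 * u ^ 2 * v + 222600 * u ^ 2 * w - 105350 * u * v ^ 2 -
        78204 * u * v * w - 24150 * u * w ^ 2 - 11025 * v ^ 3 + 7525 * v ^ 2 * w +
        4025 * v * w ^ 2 - 525 * w ^ 3) →
      486 * Q ^ 2 = P ^ 3 - 3 * GA (u ^ 2) (v ^ 2) (w ^ 2) * P +
        2 * GB (u ^ 2) (v ^ 2) (w ^ 2)) ∧
    (∀ P Q : ℤ, (P = 33858 * u ^ 2 + 14256 * u * v - 3763 * v ^ 2 + 1683 * w ^ 2 ∧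
      Q = 1045440 * u ^ 3 - 1185712 * u ^ 2 * v - 20889 * u * v ^ 2 - 16335 * u * w ^ 2 +
        35640 * v ^ 3 - 440 * v * w ^ 2) →
      486 * Q ^ 2 = P ^ 3 - 3 * GA (u ^ 2) (v ^ 2) (w ^ 2) * P +
        2 * GB (u ^ 2) (v ^ 2) (w ^ 2)) ∧
    (∀ P Q : ℤ, (P = 2 * (20097 * u ^ 2 + 2128 * v ^ 2 + 792 * w ^ 2) ∧
      Q = 24 * (5929 * u * v * w)) →
      486 * Q ^ 2 = P ^ 3 - 3 * GA (u ^ 2) (v ^ 2) (w ^ 2) * P +
        2 * GB (u ^ 2) (v ^ 2) (w ^ 2)) := by
  refine ⟨?_, ?_, ?_, ?_, ?_, ?_, ?_⟩ <;>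
  · rintro P Q ⟨rfl, rfl⟩
    unfold GA GB
    ring

end Pool.Helper66.R7
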